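import Mathlib

set_option autoImplicit false

namespace Pool.Agent.MP_02c618_ag

open Finset

variable {E : Type} [AddCommGroup E] [Module ℂ E]

/-- Powers of functionals: a functional that can be separated from all others on a subspace
has coefficient zero in a vanishing sum of `d`-th powers with few terms. -/
lemma coeff_eq_zero {J : Type} [DecidableEq J] (W : Submodule ℂ E) (f₀ : E →ₗ[ℂ] ℂ)
    (f : J → E →ₗ[ℂ] ℂ) (h₀ : ∃ u ∈ W, f₀ u ≠ 0) (s : Finset J) :
    ∀ (d : ℕ) (a₀ : ℂ) (a : J → ℂ), s.card ≤ d →
      (∀ j ∈ s, ∃ u ∈ W, f j u = 0 ∧ f₀ u ≠ 0) →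
      (∀ w ∈ W, a₀ * f₀ w ^ d + ∑ j ∈ s, a j * f j w ^ d = 0) → a₀ = 0 := by
  induction s using Finset.induction_on with
  | empty =>
    intro d a₀ a _ _ h
    obtain ⟨u, hu, hu0⟩ := h₀
    have := h u hu
    simp only [sum_empty, add_zero, mul_eq_zero] at this
    exact this.resolve_right (pow_ne_zero _ hu0)
  | insert k s hk ih =>
    intro d a₀ a hd hsep h
    rw [Finset.card_insert_of_notMem hk] at hd
    obtain ⟨e, rfl⟩ : ∃ e, d = e + 1 := ⟨d - 1, by omega⟩
    obtain ⟨u, hu, hku, hu0⟩ := hsep k (Finset.mem_insert_self _ _)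
    have key := ih e (a₀ * ((e + 1 : ℕ) * f₀ u)) (fun j => a j * ((e + 1 : ℕ) * f j u))
      (by omega) (fun j hj => hsep j (Finset.mem_insert_of_mem hj)) (by
        intro w hw
        have hd1 : ∀ g : E →ₗ[ℂ] ℂ, HasDerivAt (fun t : ℂ => (g w + t * g u) ^ (e + 1))
            ((e + 1 : ℕ) * g w ^ e * g u) 0 := by
          intro g
          have h1 : HasDerivAt (fun t : ℂ => g w + t * g u) (g u) 0 := by
            simpa using ((hasDerivAt_id (0 : ℂ)).mul_const (g u)).const_add (g w)
          simpa using h1.fun_pow (e + 1)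
        have hd2 : HasDerivAt (fun t : ℂ => a₀ * (f₀ w + t * f₀ u) ^ (e + 1)
            + ∑ j ∈ insert k s, a j * (f j w + t * f j u) ^ (e + 1))
            (a₀ * ((e + 1 : ℕ) * f₀ w ^ e * f₀ u)
              + ∑ j ∈ insert k s, a j * ((e + 1 : ℕ) * f j w ^ e * f j u)) 0 :=
          ((hd1 f₀).const_mul a₀).add
            (HasDerivAt.fun_sum (fun j _ => (hd1 (f j)).const_mul (a j)))
        have hz : (fun t : ℂ => a₀ * (f₀ w + t * f₀ u) ^ (e + 1)
            + ∑ j ∈ insert k s, a j * (f j w + t * f j u) ^ (e + 1)) = fun _ => 0 := by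
          funext t
          have := h (w + t • u) (W.add_mem hw (W.smul_mem t hu))
          simpa using this
        rw [hz] at hd2
        have h3 := hd2.unique (hasDerivAt_const (0 : ℂ) (0 : ℂ))
        rw [Finset.sum_insert hk, hku] at h3
        simp only [mul_zero, zero_add] at h3
        rw [← h3]
        congr 1
        · ring
        · exact Finset.sum_congr rfl (fun j _ => by ring))
    have h4 : ((e + 1 : ℕ) : ℂ) ≠ 0 := by exact_mod_cast Nat.succ_ne_zero e
    exact (mul_eq_zero.mp key).resolve_right (mul_ne_zero h4 hu0)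

lemma mem_span_pair_of_ker (L g f : E →ₗ[ℂ] ℂ) (h : ∀ u, L u = 0 → g u = 0 → f u = 0) :
    ∃ α β : ℂ, α • L + β • g = f := by
  have h1 : f ∈ Submodule.span ℂ (Set.range ![L, g]) := by
    apply mem_span_of_iInf_ker_le_ker
    intro u hu
    simp only [Submodule.mem_iInf, LinearMap.mem_ker] at hu ⊢
    exact h u (hu 0) (hu 1)
  rw [Matrix.range_cons, Matrix.range_cons, Matrix.range_empty, Set.union_empty,
    Set.singleton_union] at h1
  exact Submodule.mem_span_pair.mp h1

/-- A product of `d` linear functionals, any three independent, needs at least `d / 2` powers. -/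
theorem le_two_mul_card {J : Type} [DecidableEq J] {d : ℕ} (L : Fin d → E →ₗ[ℂ] ℂ)
    (hd : 0 < d) (hprod : ∃ w, ∏ i, L i w ≠ 0)
    (h3 : ∀ t : Finset (Fin d), t.card = 3 → LinearIndependent ℂ (fun i : t => L i))
    (m : J → E →ₗ[ℂ] ℂ) (s : Finset J) :
    ∀ a : J → ℂ, (∀ w, ∏ i, L i w = ∑ j ∈ s, a j * m j w ^ d) → d ≤ 2 * s.card := by
  induction s using Finset.induction_on with
  | empty =>
    intro a h
    obtain ⟨w, hw⟩ := hprod
    exact absurd (by simpa using h w) hw
  | insert k s hk ih =>
    intro a h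
    rw [Finset.card_insert_of_notMem hk]
    by_cases hA : a k = 0 ∨ m k = 0
    · have := ih a (fun w => by
        rw [h w, Finset.sum_insert hk]
        rcases hA with h1 | h1 <;> simp [h1, hd.ne'])
      omega
    by_cases hB : ∃ j ∈ s, ∃ β : ℂ, m k = β • m j
    · obtain ⟨j, hj, β, hβ⟩ := hB
      have := ih (fun i => a i + if i = j then a k * β ^ d else 0) (fun w => by
        rw [h w, Finset.sum_insert hk]
        simp only [add_mul, Finset.sum_add_distrib, ite_mul, zero_mul, Finset.sum_ite_eq',
          hj, if_true, hβ, LinearMap.smul_apply, smul_eq_mul, mul_pow]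
        ring)
      omega
    push Not at hA hB
    by_contra hlt
    have hex : ∀ i : Fin d, ∃ j ∈ insert k s,
        L i ∈ Submodule.span ℂ ({m k, m j} : Set (E →ₗ[ℂ] ℂ)) := by
      intro i
      by_cases h0 : ∃ u ∈ LinearMap.ker (L i), m k u ≠ 0
      · by_contra hno
        apply hA.1
        apply coeff_eq_zero (LinearMap.ker (L i)) (m k) m h0 s d (a k) a (by omega)
        · intro j hj
          by_contra hsep
          push Not at hsep
          obtain ⟨α, β, hαβ⟩ := mem_span_pair_of_ker (L i) (m j) (m k)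
            (fun u h1 h2 => hsep u h1 h2)
          have hα : α ≠ 0 := by
            rintro rfl
            exact hB j hj β (by simpa using hαβ.symm)
          apply hno
          refine ⟨j, Finset.mem_insert_of_mem hj, Submodule.mem_span_pair.mpr
            ⟨α⁻¹, -(α⁻¹ * β), ?_⟩⟩
          rw [← hαβ, smul_add, smul_smul, smul_smul, inv_mul_cancel₀ hα, one_smul, neg_smul]
          abel
        · intro w hw
          rw [← Finset.sum_insert (f := fun j => a j * m j w ^ d) hk, ← h w]
          exact Finset.prod_eq_zero (Finset.mem_univ i) hw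
      · push Not at h0
        obtain ⟨α, β, hαβ⟩ := mem_span_pair_of_ker (L i) (L i) (m k) (fun u h1 _ => h0 u h1)
        rw [← add_smul] at hαβ
        have hα : α + β ≠ 0 := by
          intro h1
          exact hA.2 (by rw [← hαβ, h1, zero_smul])
        refine ⟨k, Finset.mem_insert_self _ _, Submodule.mem_span_pair.mpr ⟨(α + β)⁻¹, 0, ?_⟩⟩
        rw [← hαβ, smul_smul, inv_mul_cancel₀ hα, one_smul, zero_smul, add_zero]
    choose g hg1 hg2 using hex
    have hcard := Finset.card_le_mul_card_image_of_maps_to (s := Finset.univ) (f := g)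
      (t := insert k s) (fun i _ => hg1 i) 2 (by
        intro j _
        by_contra hbig
        obtain ⟨t, ht1, ht2⟩ := Finset.exists_subset_card_eq
          (s := Finset.univ.filter (fun i => g i = j)) (n := 3) (by omega)
        classical
        have h5 := linearIndependent_le_span_aux' _ (h3 t ht2)
          ({m k, m j} : Set (E →ₗ[ℂ] ℂ)) (by
            rintro _ ⟨i, rfl⟩
            have h6 := (Finset.mem_filter.mp (ht1 i.2)).2
            have h7 := hg2 i
            rw [h6] at h7
            exact h7)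
        rw [Fintype.card_coe, ht2, ← Set.toFinset_card] at h5
        have h8 : (({m k, m j} : Set (E →ₗ[ℂ] ℂ)).toFinset).card ≤ 2 := by
          simpa using Finset.card_le_two
        omega)
    rw [Finset.card_univ, Fintype.card_fin, Finset.card_insert_of_notMem hk] at hcard
    omega

open MvPolynomial

lemma exists_functional {σ : Type} (p : MvPolynomial σ ℂ) (hp : p.IsHomogeneous 1) :
    ∃ L : (σ → ℂ) →ₗ[ℂ] ℂ, ∀ w, L w = eval w p := by
  have h1 : p ∈ Submodule.span ℂ (Set.range (X : σ → MvPolynomial σ ℂ)) := by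
    rw [← homogeneousSubmodule_one_eq_span_X]
    exact hp
  clear hp
  induction h1 using Submodule.span_induction with
  | mem x hx =>
    obtain ⟨i, rfl⟩ := hx
    exact ⟨LinearMap.proj i, fun w => by simp⟩
  | zero => exact ⟨0, fun w => by simp⟩
  | add x y _ _ hx hy =>
    obtain ⟨L1, h1⟩ := hx
    obtain ⟨L2, h2⟩ := hy
    exact ⟨L1 + L2, fun w => by simp [h1, h2]⟩
  | smul c x _ hx =>
    obtain ⟨L1, h1⟩ := hx
    exact ⟨c • L1, fun w => by simp [h1]⟩

/-- Waring rank lower bound for generic arrangements. -/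
theorem size_le_two_mul {n d r : ℕ} (hn : 2 ≤ n) (hd : n + 1 ≤ d)
    (l : Fin d → MvPolynomial (Fin (n + 1)) ℂ) (hl : ∀ i, (l i).IsHomogeneous 1)
    (hgen : ∀ t : Finset (Fin d), t.card = n + 1 → LinearIndependent ℂ (fun i : t => l i))
    (m : Fin r → MvPolynomial (Fin (n + 1)) ℂ) (hm : ∀ j, (m j).IsHomogeneous 1)
    (h : ∏ i, l i = ∑ j, m j ^ d) : d ≤ 2 * r := by
  choose L hL using fun i => exists_functional (l i) (hl i)
  choose M hM using fun j => exists_functional (m j) (hm j)
  have hsub : ∀ t : Finset (Fin d), t.card ≤ n + 1 →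
      LinearIndependent ℂ (fun i : t => l i) := by
    intro t ht
    obtain ⟨u, htu, _, hu⟩ := Finset.exists_subsuperset_card_eq (Finset.subset_univ t) ht
      (by simpa using hd)
    exact (hgen u hu).comp (fun i : t => (⟨i.1, htu i.2⟩ : u))
      (fun a b hab => Subtype.ext (congrArg (fun x : u => x.1) hab))
  have key := le_two_mul_card L (by omega) ?_ ?_ M Finset.univ (fun _ => 1) ?_
  · simpa using key
  · by_contra hno
    push Not at hno
    have h1 : ∏ i, l i = 0 := by
      apply MvPolynomial.funext
      intro w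
      rw [map_prod, map_zero, ← hno w]
      exact Finset.prod_congr rfl (fun i _ => (hL i w).symm)
    obtain ⟨i, _, hi⟩ := Finset.prod_eq_zero_iff.mp h1
    exact (hsub {i} (by simp)).ne_zero ⟨i, Finset.mem_singleton_self i⟩ hi
  · intro t ht
    have h1 := hsub t (by omega)
    rw [Fintype.linearIndependent_iff] at h1 ⊢
    intro g hg
    apply h1 g
    apply MvPolynomial.funext
    intro w
    have h2 := LinearMap.congr_fun hg w
    simp only [LinearMap.coe_sum, Finset.sum_apply, LinearMap.smul_apply, smul_eq_mul,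
      LinearMap.zero_apply, hL] at h2
    simpa using h2
  · intro w
    have h1 := congrArg (eval w) h
    simp only [map_prod, map_sum, map_pow] at h1
    simp only [hL, hM, one_mul, h1]

end Pool.Agent.MP_02c618_ag
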